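import Pool.Agent.H972Z.StarMain

set_option autoImplicit false

namespace Pool.Agent.Results.MP_ad2f8c_co.AllDimensions

open Pool.Agent.H972Z.Star

/-- In every dimension `d`, a compact connected subset of `ℝ^d` with property `C_(d+1)` is
starshaped. -/
theorem result : ∀ (d : ℕ) (E : Set (EuclideanSpace ℝ (Fin d))),
    IsCompact E → IsConnected E → PropC (d + 1) E → Starshaped E :=
  main

end Pool.Agent.Results.MP_ad2f8c_co.AllDimensions
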